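import Pool.Agent.Helper92.Ru.GoalsS

/-! Packet 1799 (Bal1): scaling by an `S`-integer. -/

set_option autoImplicit false

open NumberField

namespace Pool.Agent.Helper92.Ru

theorem bal1 (h : M1) : Bal1 := by
  intro k _ _ T
  obtain ⟨C, hC, H⟩ := h k T Unit (fun _ => 1)
  refine ⟨C, hC, fun y hy hCy => ?_⟩
  obtain ⟨x, hx0, hxS, hx⟩ := H (fun v _ => y v) (fun v _ => hy v) (by simpa using hCy)
  refine ⟨x (), ?_, hxS (), fun v => ?_⟩
  · intro h0
    apply hx0
    funext i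
    exact h0
  · have := hx v ()
    rwa [Matrix.one_mulVec] at this

theorem bal1' (h : Bal) : Bal1 := by
  intro k _ _ T
  obtain ⟨C, hC, H⟩ := h k T
  refine ⟨C, hC, fun y hy hCy => ?_⟩
  obtain ⟨α, h0, h1, h2⟩ := H (fun _ => 0) (by simp) (fun _ _ => rfl) y hy (by simpa using hCy)
  exact ⟨α, h0, fun w hw => by simpa using h2 w hw, h1⟩

end Pool.Agent.Helper92.Ru
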